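import Mathlib
import Pool.Agent.H27.AS.K

/-!
# Simultaneous prime values `F_i(n) + a_i` at the elements of `log ^ K x` arbitrary sets and in all windows, for almost all constants

Let `F_1, …, F_k` be integral polynomials of positive degrees with positive leading coefficients, for instance `k = 1`
and `F_1 = X ^ 2 + X`. Let up to `log ^ K x` ARBITRARY sets `S` of integers be given, for instance sets of primes. For all
but a proportion `1 / log ^ U x` of the vectors `a` of constants the number of the `n` in `S` in any window `(u, v] ⊆ (0, x]`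
such that all `F_i(n) + a_i` are primes is the number predicted by the `n` in `S` for which these values have no prime
factor up to `z`, a power of `log x`, with an error of at most `x / log ^ U x`, for all the sets and all the windows at once.

The replacement of the primes among the values by their sieve model with arbitrary bounded weights is the theorem
`sys_diffP` of the library (`Pool.Agent.H373R2.T7`, circle method).
New here (helper27): the uniformity in the sets and the windows and the passage to the numbers of primes, by partial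
summation with the products of the logarithms (`unif`, `part1`).
-/

set_option autoImplicit false

namespace Pool.Agent.Results.MP_82233c_nt.SystemsAtArbitrarySets

open Finset Polynomial Filter Topology

/-- the primes up to `z` -/
def primes (z : ℕ) : Finset ℕ := (Icc 1 z).filter Nat.Prime

/-- the product of `1 - 1 / l` over the primes `l ≤ z` -/
noncomputable def V (z : ℕ) : ℝ := ∏ l ∈ primes z, (1 - 1 / (l : ℝ))

/-- the values `F_i(n) + a_i` -/
def val {k : ℕ} (F : Fin k → ℤ[X]) (a : Fin k → ℕ) (i : Fin k) (n : ℕ) : ℤ := (F i).eval (n : ℤ) + a i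

open Classical in
/-- the number of the `n` in `S` with `u < n ≤ v` for which all `F_i(n) + a_i` are primes -/
noncomputable def count {k : ℕ} (F : Fin k → ℤ[X]) (a : Fin k → ℕ) (S : Finset ℕ) (u v : ℕ) : ℕ :=
  #((S.filter (fun n => u < n ∧ n ≤ v)).filter (fun n => ∀ i, (val F a i n).toNat.Prime))

open Classical in
/-- the sum of `∏ 1 / log (F_i(n) + a_i)` over the `n` in `S` with `u < n ≤ v` for which all `F_i(n) + a_i` are at least
`2` and have no prime factor `≤ z`, divided by the `k`-th power of the product of `1 - 1 / l` over the primes `l ≤ z` -/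
noncomputable def model {k : ℕ} (F : Fin k → ℤ[X]) (a : Fin k → ℕ) (z : ℕ) (S : Finset ℕ) (u v : ℕ) : ℝ :=
  ((V z)⁻¹) ^ k * ∑ n ∈ (S.filter (fun n => u < n ∧ n ≤ v)).filter
      (fun n => ∀ i, 2 ≤ val F a i n ∧ ∀ l ∈ primes z, ¬ (l : ℤ) ∣ val F a i n),
      ∏ i, 1 / Real.log ((val F a i n : ℤ) : ℝ)

/-- For all `B, K, U` there is `B₀` such that for every `E` and all large `x` the following holds if every `A_i` is within
a factor `B` of `x ^ deg F_i` and `log ^ B₀ x ≤ z ≤ log ^ E x`. Let `𝒮` be any family of at most `log ^ K x` finite sets of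
integers. For all vectors `a`, `1 ≤ a_i ≤ A_i`, with at most `A_1 ⋯ A_k / log ^ U x` exceptions, the difference of the
number and of the prediction is at most `x / log ^ U x` for all `S` in `𝒮` and all windows. -/
theorem result (k : ℕ) (F : Fin k → ℤ[X]) (hF : ∀ i, 1 ≤ (F i).natDegree ∧ 0 < (F i).leadingCoeff) (B : ℕ) (hB : 1 ≤ B)
    (K U : ℕ) :
    ∃ B₀ : ℕ, ∀ E : ℕ, ∃ x₀ : ℕ, ∀ x : ℕ, x₀ ≤ x → ∀ A : Fin k → ℕ,
      (∀ i, A i ≤ B * x ^ (F i).natDegree ∧ x ^ (F i).natDegree ≤ B * A i) →
      ∀ z : ℕ, Real.log x ^ B₀ ≤ z → (z : ℝ) ≤ Real.log x ^ E →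
      ∀ 𝒮 : Finset (Finset ℕ), (#𝒮 : ℝ) ≤ Real.log x ^ K →
      ∃ Bad ⊆ Fintype.piFinset (fun i => Icc 1 (A i)), (#Bad : ℝ) ≤ (∏ i, (A i : ℝ)) / Real.log x ^ U ∧
        ∀ a ∈ Fintype.piFinset (fun i => Icc 1 (A i)), a ∉ Bad → ∀ S ∈ 𝒮, ∀ u v : ℕ, v ≤ x →
          |(count F a S u v : ℝ) - model F a z S u v| ≤ x / Real.log x ^ U := by
  obtain ⟨B₀, h⟩ := Pool.Agent.H27.AS.part1 F (fun i => (hF i).1) (fun i => (hF i).2) B hB K U
  exact ⟨B₀, h⟩

end Pool.Agent.Results.MP_82233c_nt.SystemsAtArbitrarySets
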